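import Pool.Agent.W223.PL.Stms

set_option autoImplicit false

namespace Pool.Agent.Q288.PL

open Polynomial Pool.Agent.W223.PL

/-- `B² - (d₀ + X) A²` is not constant -/
theorem deg_pos (A B : ℤ[X]) (d₀ : ℤ) (hA : A ≠ 0) :
    1 ≤ (B ^ 2 - (C d₀ + X) * A ^ 2).natDegree := by
  have h1 : (C d₀ + X : ℤ[X]).natDegree = 1 := by
    rw [add_comm]; exact natDegree_X_add_C d₀
  have h0 : (C d₀ + X : ℤ[X]) ≠ 0 := by
    intro h; rw [h] at h1; simp at h1
  have h2 : ((C d₀ + X) * A ^ 2).natDegree = 1 + 2 * A.natDegree := by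
    rw [natDegree_mul h0 (pow_ne_zero 2 hA), h1, natDegree_pow]
  have h3 : (B ^ 2).natDegree = 2 * B.natDegree := natDegree_pow B 2
  rcases lt_or_ge (2 * B.natDegree) (1 + 2 * A.natDegree) with h | h
  · rw [natDegree_sub_eq_right_of_natDegree_lt (by omega)]
    omega
  · rw [natDegree_sub_eq_left_of_natDegree_lt (by omega)]
    omega

theorem sqr : StmtSQR := by
  classical
  intro m A B N d₀ R hA hN hR hAm hBm hns 𝒯 g hg hG
  unfold NonSq at hns
  push Not at hns
  obtain ⟨P₁, P₂, hP, he⟩ := hns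
  have hCN : (C N : ℤ[X]) ≠ 0 := C_ne_zero.2 hN
  obtain ⟨Q, hQ⟩ : ∃ Q : ℤ[X], Q = B ^ 2 - (C d₀ + X) * A ^ 2 := ⟨_, rfl⟩
  have hQ1 : 1 ≤ Q.natDegree := hQ ▸ deg_pos A B d₀ hA
  have hQ2 : Q.natDegree ≤ 2 * m - 1 := by
    rw [hQ]
    refine (natDegree_sub_le _ _).trans (max_le ?_ ?_)
    · rw [natDegree_pow]; omega
    · refine natDegree_mul_le.trans ?_
      have h1 : (C d₀ + X : ℤ[X]).natDegree = 1 := by
        rw [add_comm]; exact natDegree_X_add_C d₀
      rw [h1, natDegree_pow]; omega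
  rw [← hQ] at he hG
  have hGd : (C N * Q).natDegree = Q.natDegree := natDegree_C_mul hN
  have hP2 : P₂ ≠ 0 := by
    rintro rfl
    rcases hP with h | h
    · apply h
      have : P₁ ^ 2 = 0 := by simpa using he
      exact pow_eq_zero_iff (two_ne_zero) |>.1 this
    · exact h rfl
  have hdvd : P₂ ∣ P₁ := by
    rw [← IsIntegrallyClosed.pow_dvd_pow_iff (n := 2) two_ne_zero]
    exact ⟨C N * Q, by linear_combination he⟩
  obtain ⟨H, hH⟩ := hdvd
  have hsq : H ^ 2 = C N * Q := by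
    have h1 : P₂ ^ 2 * (H ^ 2 - C N * Q) = 0 := by
      rw [hH] at he
      linear_combination he
    rcases mul_eq_zero.1 h1 with h2 | h2
    · exact absurd (pow_eq_zero_iff (two_ne_zero) |>.1 h2) hP2
    · exact sub_eq_zero.1 h2
  have hHd : 2 * H.natDegree = Q.natDegree := by
    rw [← hGd, ← hsq, natDegree_pow]
  have hH1 : 1 ≤ H.natDegree := by omega
  have hH2 : H.natDegree ≤ 2 * m := by omega
  let t : Finset ℤ := (R.natAbs.divisors.image fun e : ℕ => N * (e : ℤ)) ∪
    (R.natAbs.divisors.image fun e : ℕ => -(N * (e : ℤ)))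
  have ht : t.card ≤ 2 * R.natAbs.divisors.card := by
    refine (Finset.card_union_le _ _).trans ?_
    have h1 := Finset.card_image_le (s := R.natAbs.divisors) (f := fun e : ℕ => N * (e : ℤ))
    have h2 := Finset.card_image_le (s := R.natAbs.divisors) (f := fun e : ℕ => -(N * (e : ℤ)))
    omega
  have hmaps : ∀ τ ∈ 𝒯, H.eval τ ∈ t := by
    intro τ hτ
    have h1 : (H.eval τ) ^ 2 = (N * g τ) ^ 2 := by
      rw [hG τ hτ, ← hsq, eval_pow]
    have hd : (g τ).natAbs ∈ R.natAbs.divisors :=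
      Nat.mem_divisors.2 ⟨Int.natAbs_dvd_natAbs.2 (hg τ hτ), Int.natAbs_ne_zero.2 hR⟩
    have h3 : H.eval τ = N * ((g τ).natAbs : ℤ) ∨ H.eval τ = -(N * ((g τ).natAbs : ℤ)) := by
      rcases sq_eq_sq_iff_eq_or_eq_neg.1 h1 with h | h <;>
      rcases Int.natAbs_eq (g τ) with h' | h'
      · left; rw [h, ← h']
      · right; rw [h]; nth_rewrite 1 [h']; ring
      · right; rw [h, ← h']
      · left; rw [h]; nth_rewrite 1 [h']; ring
    rcases h3 with h | h
    · exact Finset.mem_union_left _ (Finset.mem_image.2 ⟨_, hd, h.symm⟩)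
    · exact Finset.mem_union_right _ (Finset.mem_image.2 ⟨_, hd, h.symm⟩)
  have hfib : ∀ v ∈ t, (𝒯.filter fun τ => H.eval τ = v).card ≤ 2 * m := by
    intro v _
    have hne : H - C v ≠ 0 := by
      intro h
      have h1 : H = C v := sub_eq_zero.1 h
      rw [h1, natDegree_C] at hH1
      omega
    have hsub : (𝒯.filter fun τ => H.eval τ = v) ⊆ (H - C v).roots.toFinset := by
      intro τ hτ
      rw [Multiset.mem_toFinset, mem_roots hne, IsRoot.def, eval_sub, eval_C,
        (Finset.mem_filter.1 hτ).2, sub_self]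
    calc (𝒯.filter fun τ => H.eval τ = v).card ≤ (H - C v).roots.toFinset.card :=
          Finset.card_le_card hsub
      _ ≤ Multiset.card (H - C v).roots := Multiset.toFinset_card_le _
      _ ≤ (H - C v).natDegree := card_roots' _
      _ = H.natDegree := natDegree_sub_C
      _ ≤ 2 * m := hH2
  have hfin := Finset.card_le_mul_card_image_of_maps_to hmaps (2 * m) hfib
  calc 𝒯.card ≤ 2 * m * t.card := hfin
    _ ≤ 2 * m * (2 * R.natAbs.divisors.card) := Nat.mul_le_mul_left _ ht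
    _ = 4 * m * R.natAbs.divisors.card := by ring

end Pool.Agent.Q288.PL
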