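import Mathlib

/-!
# The 2-length of 2-solvable linear groups in characteristic 2 (MP_d3ab46_al)

Project PL of helper288.  All statements of the project.  A finite group is here 2-solvable if it has a
series whose factors are 2-groups or of odd order (no use of the Feit-Thompson theorem).
-/

set_option autoImplicit false

namespace Pool.Agent.Q288.PL

open Subgroup

/-- `X k G`: `G` has a series of normal subgroups whose factors are, from the bottom, a 2-group,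
a group of odd order, a 2-group, ..., a 2-group, with `k` factors of odd order (factors may be trivial). -/
def X : ℕ → (G : Type) → [Group G] → Prop
  | 0, G, _ => IsPGroup 2 G
  | k + 1, G, _ => ∃ A B : Subgroup G, ∃ (_ : A.Normal) (_ : B.Normal), A ≤ B ∧ IsPGroup 2 A ∧
      Odd (A.relIndex B) ∧ X k (G ⧸ B)

/-- `X' k G`: the same, with one more factor of odd order allowed at the very bottom. -/
def X' (k : ℕ) (G : Type) [Group G] : Prop :=
  ∃ B : Subgroup G, ∃ (_ : B.Normal), Odd (Nat.card B) ∧ X k (G ⧸ B)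

/-- 2-solvable. -/
def S2 (G : Type) [Group G] : Prop := ∃ k, X k G

/-- minimal normal subgroup -/
def MinN {G : Type} [Group G] (N : Subgroup G) : Prop :=
  N.Normal ∧ N ≠ ⊥ ∧ ∀ M : Subgroup G, M.Normal → M ≤ N → M = ⊥ ∨ M = N

/-- closure properties of `X k` -/
structure Base : Prop where
  inj : ∀ (k : ℕ) (G H : Type) [Group G] [Group H] [Finite G] (f : H →* G),
    Function.Injective f → X k G → X k H
  surj : ∀ (k : ℕ) (G H : Type) [Group G] [Group H] [Finite G] (f : G →* H),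
    Function.Surjective f → X k G → X k H
  fam : ∀ (k : ℕ) (G ι : Type) [Group G] [Finite G] [Finite ι] (H : ι → Type) [∀ i, Group (H i)]
    [∀ i, Finite (H i)] (f : ∀ i, G →* H i), (∀ g, (∀ i, f i g = 1) → g = 1) →
    (∀ i, X k (H i)) → X k G
  mono : ∀ (k l : ℕ) (G : Type) [Group G] [Finite G], k ≤ l → X k G → X l G
  two : ∀ (k : ℕ) (G : Type) [Group G] [Finite G] (A : Subgroup G) [A.Normal],
    IsPGroup 2 A → X k (G ⧸ A) → X k G
  odd : ∀ (k : ℕ) (G : Type) [Group G] [Finite G] (B : Subgroup G) [B.Normal],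
    Odd (Nat.card B) → X k (G ⧸ B) → X (k + 1) G
  ext : ∀ (a b : ℕ) (G : Type) [Group G] [Finite G] (N : Subgroup G) [N.Normal],
    X a N → X b (G ⧸ N) → X (a + b) G

/-- closure properties of `X' k` -/
structure Base' : Prop where
  inj : ∀ (k : ℕ) (G H : Type) [Group G] [Group H] [Finite G] (f : H →* G),
    Function.Injective f → X' k G → X' k H
  surj : ∀ (k : ℕ) (G H : Type) [Group G] [Group H] [Finite G] (f : G →* H),
    Function.Surjective f → X' k G → X' k H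
  fam : ∀ (k : ℕ) (G ι : Type) [Group G] [Finite G] [Finite ι] (H : ι → Type) [∀ i, Group (H i)]
    [∀ i, Finite (H i)] (f : ∀ i, G →* H i), (∀ g, (∀ i, f i g = 1) → g = 1) →
    (∀ i, X' k (H i)) → X' k G
  mono : ∀ (k l : ℕ) (G : Type) [Group G] [Finite G], k ≤ l → X' k G → X' l G
  of : ∀ (k : ℕ) (G : Type) [Group G] [Finite G], X k G → X' k G
  up : ∀ (k : ℕ) (G : Type) [Group G] [Finite G], X' k G → X (k + 1) G
  odd : ∀ (k : ℕ) (G : Type) [Group G] [Finite G] (B : Subgroup G) [B.Normal],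
    Odd (Nat.card B) → X' k (G ⧸ B) → X' k G
  ext : ∀ (a b : ℕ) (G : Type) [Group G] [Finite G] (N : Subgroup G) [N.Normal],
    X' a N → X b (G ⧸ N) → X' (a + b) G
  /-- a nilpotent normal subgroup at the bottom costs nothing in `X'` -/
  nil : ∀ (k : ℕ) (G : Type) [Group G] [Finite G] (N : Subgroup G) [N.Normal],
    Group.IsNilpotent N → X k (G ⧸ N) → X' k G
  cen : ∀ (k : ℕ) (G : Type) [Group G] [Finite G] (C : Subgroup G) [C.Normal],
    C ≤ Subgroup.center G → X' k (G ⧸ C) → X' k G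
  cen2 : ∀ (k : ℕ) (G : Type) [Group G] [Finite G] (C : Subgroup G) [C.Normal],
    C ≤ Subgroup.center G → X (k + 1) (G ⧸ C) → X (k + 1) G

/-- a minimal normal subgroup of a 2-solvable group is a 2-group or has odd order -/
def CL1 : Prop := ∀ (G : Type) [Group G] [Finite G] (N : Subgroup G), S2 G → MinN N →
  IsPGroup 2 N ∨ Odd (Nat.card N)

/-- the main lemma for critical groups (replaces Feit-Thompson) -/
def CL2 : Prop := ∀ (k : ℕ) (G : Type) [Group G] [Finite G] (N : Subgroup G), N.Normal →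
  Odd (Nat.card N) → Subgroup.centralizer (N : Set G) = ⊥ →
  (∀ r : ℕ, r.Prime → r ∣ Nat.card N → ∃ R : Subgroup G, R ≤ N ∧
    Nat.card R = r ^ (Nat.card N).factorization r ∧ X (k + 1) (Subgroup.normalizer (R : Set G)) ∧
    Subgroup.normalizer (R : Set G) ⊔ N = ⊤) →
  N ≠ ⊥ → X (k + 1) G

/-- critical groups: minimal normal subgroups are `r`-groups for an odd prime `r` -/
def CL : Prop := ∀ (k : ℕ) (G : Type) [Group G] [Finite G], S2 G → ¬ X k G →
  (∀ H : Subgroup G, H ≠ ⊤ → X k H) →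
  (∀ (N : Subgroup G) (_ : N.Normal), N ≠ ⊥ → X k (G ⧸ N)) →
  ∀ N : Subgroup G, MinN N → ∃ r : ℕ, r.Prime ∧ r ≠ 2 ∧ IsPGroup r N

/-- imprimitive step for permutation groups -/
def PA : Prop := ∀ (a b : ℕ) (G : Type) [Group G] [Finite G] (H Y : Subgroup G), H ≤ Y →
  X a (Y ⧸ (H.subgroupOf Y).normalCore) → X b (G ⧸ Y.normalCore) → X (a + b) (G ⧸ H.normalCore)

/-- affine step for permutation groups -/
def PB : Prop := ∀ (k : ℕ) (G : Type) [Group G] [Finite G] (r : ℕ) (N H : Subgroup G),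
  r.Prime → r ≠ 2 → MinN N → IsPGroup r N → H.normalCore = ⊥ → H ⊔ N = ⊤ →
  (∀ (j : ℕ) (Y : Subgroup H), Y.index < 3 ^ (j + 1) → X j (H ⧸ Y.normalCore)) →
  H.index < 3 ^ (k + 1) → X k G

/-- permutation groups: 2-solvable of degree less than `3^(k+1)` -/
def PT : Prop := ∀ (k : ℕ) (G : Type) [Group G] [Finite G] (H : Subgroup G), S2 G →
  H.index < 3 ^ (k + 1) → X k (G ⧸ H.normalCore)

/-- permutation groups, intransitive version -/
def PF : Prop := ∀ (k : ℕ) (G Ω : Type) [Group G] [Finite G] [Finite Ω] (f : G →* Equiv.Perm Ω),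
  S2 G → Function.Injective f → Nat.card Ω < 3 ^ (k + 1) → X k G

/-- linear groups in characteristic 2 -/
def L2 (n : ℕ) : Prop := ∀ (K V G : Type) [Field K] [IsAlgClosed K] [CharP K 2] [AddCommGroup V]
  [Module K V] [FiniteDimensional K V] [Group G] [Finite G] (ρ : G →* (V →ₗ[K] V)) (k : ℕ),
  S2 G → Function.Injective ρ → Module.finrank K V = n → 81 * n < 3 ^ (k + 1) → X k G

/-- linear groups in odd characteristic -/
def L1 (n : ℕ) : Prop := ∀ (l : ℕ) (K V G : Type) [Fact l.Prime] [Field K] [IsAlgClosed K] [CharP K l]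
  [AddCommGroup V] [Module K V] [FiniteDimensional K V] [Group G] [Finite G]
  (ρ : G →* (V →ₗ[K] V)) (k : ℕ), l ≠ 2 →
  S2 G → Function.Injective ρ → Module.finrank K V = n → 27 * n < 3 ^ (k + 1) → X' k G

/-- `ρ` is irreducible (no invariant subspaces except `⊥`, `⊤`) -/
def Irr {K V G : Type} [Field K] [AddCommGroup V] [Module K V] [Group G]
    (ρ : G →* (V →ₗ[K] V)) : Prop :=
  ∀ W : Submodule K V, (∀ g, W ≤ W.comap (ρ g)) → W = ⊥ ∨ W = ⊤

/-- reducible case -/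
def D1a : Prop := ∀ (K V G : Type) [Field K] [IsAlgClosed K] [CharP K 2] [AddCommGroup V]
  [Module K V] [FiniteDimensional K V] [Group G] [Finite G] (ρ : G →* (V →ₗ[K] V)) (k : ℕ),
  (∀ m < Module.finrank K V, L2 m) → S2 G → Function.Injective ρ → ¬ Irr ρ →
  81 * Module.finrank K V < 3 ^ (k + 1) → X k G

def D1b : Prop := ∀ (l : ℕ) (K V G : Type) [Fact l.Prime] [Field K] [IsAlgClosed K] [CharP K l]
  [AddCommGroup V] [Module K V] [FiniteDimensional K V] [Group G] [Finite G]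
  (ρ : G →* (V →ₗ[K] V)) (k : ℕ), l ≠ 2 →
  (∀ m < Module.finrank K V, L1 m) → S2 G → Function.Injective ρ → ¬ Irr ρ →
  27 * Module.finrank K V < 3 ^ (k + 1) → X' k G

/-- Clifford decomposition for a noncentral abelian normal subgroup -/
def D2 : Prop := ∀ (K V G : Type) [Field K] [IsAlgClosed K] [AddCommGroup V]
  [Module K V] [FiniteDimensional K V] [Group G] [Finite G] (ρ : G →* (V →ₗ[K] V))
  (A : Subgroup G), A.Normal → Irr ρ → (∀ a ∈ A, ∀ b ∈ A, a * b = b * a) →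
  (∃ a ∈ A, ∀ c : K, ρ a ≠ c • LinearMap.id) →
  ∃ (m : ℕ) (f : G →* Equiv.Perm (Fin m)) (V' : Fin m → Submodule K V), 2 ≤ m ∧
    (∀ i, Module.finrank K (V' i) * m = Module.finrank K V) ∧
    (∀ g, f g = 1 → ∀ i, V' i ≤ (V' i).comap (ρ g)) ∧ ⨆ i, V' i = ⊤

/-- imprimitive case -/
def D2a : Prop := ∀ (K V G : Type) [Field K] [IsAlgClosed K] [CharP K 2] [AddCommGroup V]
  [Module K V] [FiniteDimensional K V] [Group G] [Finite G] (ρ : G →* (V →ₗ[K] V))
  (m : ℕ) (f : G →* Equiv.Perm (Fin m)) (V' : Fin m → Submodule K V) (k : ℕ),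
  (∀ m < Module.finrank K V, L2 m) → S2 G → Function.Injective ρ → 2 ≤ m →
  (∀ i, Module.finrank K (V' i) * m = Module.finrank K V) → 0 < Module.finrank K V →
  (∀ g, f g = 1 → ∀ i, V' i ≤ (V' i).comap (ρ g)) → ⨆ i, V' i = ⊤ →
  81 * Module.finrank K V < 3 ^ (k + 1) → X k G

def D2b : Prop := ∀ (l : ℕ) (K V G : Type) [Fact l.Prime] [Field K] [IsAlgClosed K] [CharP K l]
  [AddCommGroup V] [Module K V] [FiniteDimensional K V] [Group G] [Finite G]
  (ρ : G →* (V →ₗ[K] V)) (m : ℕ) (f : G →* Equiv.Perm (Fin m)) (V' : Fin m → Submodule K V) (k : ℕ),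
  l ≠ 2 → (∀ m < Module.finrank K V, L1 m) → S2 G → Function.Injective ρ → 2 ≤ m →
  (∀ i, Module.finrank K (V' i) * m = Module.finrank K V) → 0 < Module.finrank K V →
  (∀ g, f g = 1 → ∀ i, V' i ≤ (V' i).comap (ρ g)) → ⨆ i, V' i = ⊤ →
  27 * Module.finrank K V < 3 ^ (k + 1) → X' k G

/-- Schur -/
def D9 : Prop := ∀ (K V G : Type) [Field K] [IsAlgClosed K] [AddCommGroup V]
  [Module K V] [FiniteDimensional K V] [Nontrivial V] [Group G] (ρ : G →* (V →ₗ[K] V)),
  Irr ρ → ∀ z ∈ Subgroup.center G, ∃ c : K, ρ z = c • LinearMap.id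

/-- `Z = center G ≤ N`, `N/Z` abelian -/
def NZ {G : Type} [Group G] (N : Subgroup G) : Prop :=
  N.Normal ∧ Subgroup.center G ≤ N ∧ ∀ x ∈ N, ∀ y ∈ N, x * y * x⁻¹ * y⁻¹ ∈ Subgroup.center G

/-- `|N/Z| ≤ n^2` -/
def D3a : Prop := ∀ (K V G : Type) [Field K] [AddCommGroup V]
  [Module K V] [FiniteDimensional K V] [Nontrivial V] [Group G] [Finite G] (ρ : G →* (V →ₗ[K] V))
  (N : Subgroup G), Function.Injective ρ → (∀ z ∈ Subgroup.center G, ∃ c : K, ρ z = c • LinearMap.id) →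
  NZ N → (∀ x ∈ N, (∀ y ∈ N, x * y = y * x) → x ∈ Subgroup.center G) →
  (Subgroup.center G).relIndex N ≤ Module.finrank K V ^ 2

/-- the centralizer of `N/Z` is `N` -/
def D3b : Prop := ∀ (K V G : Type) [Field K] [AddCommGroup V]
  [Module K V] [FiniteDimensional K V] [Nontrivial V] [Group G] [Finite G] (ρ : G →* (V →ₗ[K] V))
  (N : Subgroup G), Function.Injective ρ → (∀ z ∈ Subgroup.center G, ∃ c : K, ρ z = c • LinearMap.id) →
  NZ N → (∀ g, (∀ y ∈ N, g * y = y * g) → g ∈ Subgroup.center G) →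
  ∀ g, (∀ y ∈ N, g * y * g⁻¹ * y⁻¹ ∈ Subgroup.center G) → g ∈ N

/-- `S/Z` is a minimal normal subgroup of `G/Z` -/
def MinZ {G : Type} [Group G] (S : Subgroup G) : Prop :=
  S.Normal ∧ Subgroup.center G < S ∧
    ∀ M : Subgroup G, M.Normal → Subgroup.center G ≤ M → M ≤ S → M = Subgroup.center G ∨ M = S

/-- choice of `N` -/
def D4 : Prop := ∀ (G : Type) [Group G] [Finite G],
  (∀ A : Subgroup G, A.Normal → (∀ a ∈ A, ∀ b ∈ A, a * b = b * a) → A ≤ Subgroup.center G) →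
  (∀ S : Subgroup G, MinZ S → ∀ x ∈ S, ∀ y ∈ S, x * y * x⁻¹ * y⁻¹ ∈ Subgroup.center G) →
  ∃ N : Subgroup G, NZ N ∧ (∃ e : ℕ, Squarefree e ∧ ∀ x ∈ N, x ^ e ∈ Subgroup.center G) ∧
    ∀ g, (∀ y ∈ N, g * y = y * g) → g ∈ Subgroup.center G

/-- critical groups, `X'` -/
def D5a : Prop := ∀ (k : ℕ) (G : Type) [Group G] [Finite G], S2 G → ¬ X' k G →
  (∀ H : Subgroup G, H ≠ ⊤ → X' k H) → ∀ S : Subgroup G, MinZ S →
  ∀ x ∈ S, ∀ y ∈ S, x * y * x⁻¹ * y⁻¹ ∈ Subgroup.center G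

/-- critical groups, `X` -/
def D5b : Prop := ∀ (k : ℕ) (G : Type) [Group G] [Finite G], S2 G → ¬ X (k + 1) G →
  (∀ H : Subgroup G, H ≠ ⊤ → X (k + 1) H) → ∀ S : Subgroup G, MinZ S →
  ∀ x ∈ S, ∀ y ∈ S, x * y * x⁻¹ * y⁻¹ ∈ Subgroup.center G

/-- the action on `N/Z` -/
def D6 : Prop := ∀ (j e : ℕ) (G : Type) [Group G] [Finite G] (N : Subgroup G) [N.Normal],
  S2 G → NZ N → Squarefree e → (∀ x ∈ N, x ^ e ∈ Subgroup.center G) →
  (∀ g, (∀ y ∈ N, g * y * g⁻¹ * y⁻¹ ∈ Subgroup.center G) → g ∈ N) →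
  (∀ (r d : ℕ) (H : Type) [Fact r.Prime] [Group H] [Finite H]
    (f : H →* Matrix.GeneralLinearGroup (Fin d) (ZMod r)),
    r ^ d ≤ (Subgroup.center G).relIndex N → S2 H → Function.Injective f → X j H) →
  X j (G ⧸ N)

/-- small linear groups over prime fields -/
def D7 : Prop := ∀ (n k : ℕ), 2 ≤ n → 27 * n < 3 ^ (k + 1) → (∀ m < n, L1 m ∧ L2 m) →
  ∀ (r d : ℕ) (H : Type) [Fact r.Prime] [Group H] [Finite H]
    (f : H →* Matrix.GeneralLinearGroup (Fin d) (ZMod r)),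
    r ^ d ≤ n ^ 2 → S2 H → Function.Injective f → X k H

/-- the main theorem on linear groups -/
def LT : Prop := ∀ n, L1 n ∧ L2 n

/-! ## p-length -/

/-- `p`-solvable: a subnormal series all of whose factors have order `p` or prime to `p` -/
def PSolv (p : ℕ) (H : Type) [Group H] : Prop :=
  ∃ (N : ℕ) (s : ℕ → Subgroup H), s 0 = ⊥ ∧ s N = ⊤ ∧
    ∀ i < N, s i ≤ s (i + 1) ∧ ((s i).subgroupOf (s (i + 1))).Normal ∧
      ((s i).relIndex (s (i + 1)) = p ∨ ((s i).relIndex (s (i + 1))).Coprime p)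

/-- there is a normal series with factors `p`-groups or `p'`-groups, at most `c` of them nontrivial `p`-groups -/
def PLenLE (p : ℕ) (H : Type) [Group H] (c : ℕ) : Prop :=
  ∃ (N : ℕ) (s : ℕ → Subgroup H), s 0 = ⊥ ∧ s N = ⊤ ∧ (∀ i, (s i).Normal) ∧
    (∀ i < N, s i ≤ s (i + 1) ∧ ((∃ m, (s i).relIndex (s (i + 1)) = p ^ m) ∨
      ((s i).relIndex (s (i + 1))).Coprime p)) ∧
    ((Finset.range N).filter (fun i => p ∣ (s i).relIndex (s (i + 1)))).card ≤ c

/-- the `p`-length -/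
noncomputable def pLen (p : ℕ) (H : Type) [Group H] : ℕ := sInf {c | PLenLE p H c}

/-- `m_n(q)` -/
noncomputable def mLen (p : ℕ) (F : Type) [Field F] (n : ℕ) : ℕ :=
  sSup {c | ∃ H : Subgroup (Matrix.GeneralLinearGroup (Fin n) F), PSolv p H ∧ c = pLen p H}

def E1 : Prop := ∀ (H : Type) [Group H] [Finite H], PSolv 2 H → S2 H

def E2 : Prop := ∀ (H : Type) [Group H] [Finite H] (k : ℕ), X k H → PLenLE 2 H (k + 1)

/-- wreath product with `S_3`: the 2-length grows -/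
def E3a : Prop := ∀ (c : ℕ) (G H : Type) [Group G] [Group H] [Finite G] [Finite H]
  (π : G →* Equiv.Perm (Fin 3)) (e : (Fin 3 → H) →* G) (t : Equiv.Perm (Fin 3) →* G),
  Function.Injective e → e.range = π.ker → (∀ σ, π (t σ) = σ) →
  (∀ σ h, t σ * e h * (t σ)⁻¹ = e (fun i => h (σ⁻¹ i))) →
  PLenLE 2 G c → ∃ c', c = c' + 1 ∧ PLenLE 2 H c'

/-- examples -/
def E3 : Prop := ∀ k : ℕ, ∃ H : Subgroup (Equiv.Perm (Fin (3 ^ k))), PSolv 2 H ∧
  ∀ c, PLenLE 2 H c → k ≤ c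

/-- upper bound -/
def E4u : Prop := ∀ (F : Type) [Field F] [Finite F] [CharP F 2] (n k : ℕ), 81 * n < 3 ^ (k + 1) →
  mLen 2 F n ≤ k + 1

/-- lower bound -/
def E4l : Prop := ∀ (F : Type) [Field F] [Finite F] (n k : ℕ), 3 ^ k ≤ n → k ≤ mLen 2 F n

/-- the limit -/
def E5 : Prop := ∀ (F : Type) [Field F] [Finite F] [CharP F 2],
  Filter.Tendsto (fun n : ℕ => (mLen 2 F n : ℝ) / Real.logb 2 n) Filter.atTop
    (nhds (Real.log 2 / Real.log 3))

end Pool.Agent.Q288.PL
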